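import Pool.Agent.Lib.MP_9fae2f_co.Cover

set_option autoImplicit false

/-!
# Polyholed graphs have bounded (strong) isometric path complexity

Outline.  Fix a root `v` and an isometric path `P`.  If `P` is not covered by few `v`-rooted
isometric paths then it contains many pairwise incomparable vertices, spaced as far as we like.
Shortest paths from these vertices to `v`, cut at their last vertex near `P`, are the legs of a fan
whose rim is `P`; the leg `a` has height `h a` and its neighbours on the rim are between `l a` and
`r a`.  Let `t a b` be the largest level sum of an edge between the legs `a < b`.  There is an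
induced cycle of length `(h a - r a) + (h b + l b) + 3 - t a b`.  By Ramsey's theorem this length is
the same number `L` for all pairs of many legs.  Then `t a c` exceeds `t a b` and `t b c` whenever
`a < b < c`, and joining the legs `a, b` through `c` (or `b, c` through `a`) gives induced cycles
whose lengths differ for different `c`.
-/

namespace Pool.Agent.Results.MP_9fae2f_co.PolyholedBounded

open SimpleGraph Pool.Agent.Lib.MP_9fae2f_co

universe u

/-- Positive answer to both questions: there is a function `f` such that every connected
`l`-polyholed graph satisfies `ipco ≤ f l` and `sipco ≤ f l`. -/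
theorem result : ∃ f : ℕ → ℕ, ∀ (l : ℕ) (V : Type u) (G : SimpleGraph V),
    G.Connected → Polyholed G l →
      (∀ v, HasProperty G v (f l)) ∧ ipco G ≤ f l ∧ sipco G ≤ f l := by
  choose f hf using exists_bound.{u}
  refine ⟨f, fun l V G hG hl => ?_⟩
  have h := hf l V G hG hl
  obtain ⟨v⟩ := hG.nonempty
  exact ⟨h, Nat.sInf_le ⟨v, h v⟩, Nat.sInf_le h⟩

end Pool.Agent.Results.MP_9fae2f_co.PolyholedBounded
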